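import Pool.Agent.helper78.HR.Defs

/-!
HR project (MP_58257a_co, S08871), row ID: greedy independent set in a graph with an orientation of
out-degree at most `d`.
-/

set_option autoImplicit false

namespace Pool.Agent.helper78.HR

open Finset

/-- Some member has in-degree at most `d`. -/
theorem hrID_exists_small {T : Type*} [DecidableEq T] (F : Finset T) (hF : F.Nonempty)
    (O : T → T → Prop) [DecidableRel O] (d : ℕ)
    (hO : ∀ f ∈ F, (F.filter (fun g => g ≠ f ∧ O f g)).card ≤ d) :
    ∃ f ∈ F, (F.filter (fun g => g ≠ f ∧ O g f)).card ≤ d := by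
  by_contra hcon
  push Not at hcon
  have h1 : ∑ f ∈ F, (F.filter (fun g => g ≠ f ∧ O g f)).card
      = ∑ f ∈ F, (F.filter (fun g => g ≠ f ∧ O f g)).card := by
    simp only [Finset.card_filter]
    rw [Finset.sum_comm]
    refine Finset.sum_congr rfl fun f _ => Finset.sum_congr rfl fun g _ => ?_
    have : (f ≠ g ∧ O f g) ↔ (g ≠ f ∧ O f g) := by
      constructor
      · rintro ⟨a, b⟩; exact ⟨a.symm, b⟩
      · rintro ⟨a, b⟩; exact ⟨a.symm, b⟩
    simp only [this]
  have h2 : ∑ f ∈ F, (F.filter (fun g => g ≠ f ∧ O f g)).card ≤ F.card * d := by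
    calc ∑ f ∈ F, (F.filter (fun g => g ≠ f ∧ O f g)).card ≤ ∑ _f ∈ F, d :=
          Finset.sum_le_sum hO
      _ = F.card * d := by simp
  have h3 : F.card * (d + 1) ≤ ∑ f ∈ F, (F.filter (fun g => g ≠ f ∧ O g f)).card := by
    calc F.card * (d + 1) = ∑ _f ∈ F, (d + 1) := by simp
      _ ≤ _ := Finset.sum_le_sum fun f hf => Nat.succ_le_of_lt (hcon f hf)
  have h4 : 0 < F.card := hF.card_pos
  rw [h1] at h3
  nlinarith

theorem hrID_aux {T : Type*} [DecidableEq T] (E O : T → T → Prop) [DecidableRel O] (d : ℕ)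
    (n : ℕ) : ∀ F : Finset T, F.card = n →
    (∀ f ∈ F, ∀ g ∈ F, f ≠ g → E f g → O f g ∨ O g f) →
    (∀ f ∈ F, (F.filter (fun g => g ≠ f ∧ O f g)).card ≤ d) →
    ∃ D ⊆ F, (∀ f ∈ D, ∀ g ∈ D, f ≠ g → ¬ E f g) ∧ F.card ≤ (2 * d + 1) * D.card := by
  induction n using Nat.strong_induction_on with
  | _ n ih =>
    intro F hn hE hO
    rcases F.eq_empty_or_nonempty with rfl | hne
    · exact ⟨∅, subset_rfl, by simp, by simp⟩
    obtain ⟨f, hf, hin⟩ := hrID_exists_small F hne O d hO
    have hout := hO f hf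
    set A := F.filter (fun g => g ≠ f ∧ O f g) with hA
    set B := F.filter (fun g => g ≠ f ∧ O g f) with hB
    set N := insert f (A ∪ B) with hN
    have hNF : N ⊆ F := by
      intro g hg
      rw [hN, mem_insert, mem_union] at hg
      rcases hg with rfl | hg | hg
      · exact hf
      · exact (mem_filter.mp hg).1
      · exact (mem_filter.mp hg).1
    have hNc : N.card ≤ 2 * d + 1 := by
      calc N.card ≤ (A ∪ B).card + 1 := card_insert_le _ _
        _ ≤ (A.card + B.card) + 1 := by
            have := card_union_le A B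
            omega
        _ ≤ 2 * d + 1 := by omega
    have hNpos : 0 < N.card := card_pos.mpr ⟨f, mem_insert_self _ _⟩
    have hsplit : (F \ N).card + N.card = F.card := card_sdiff_add_card_eq_card hNF
    have hlt : (F \ N).card < n := by omega
    obtain ⟨D, hDF, hD, hc⟩ := ih (F \ N).card hlt (F \ N) rfl
      (fun a ha b hb => hE a (mem_sdiff.mp ha).1 b (mem_sdiff.mp hb).1)
      (fun a ha => le_trans (card_le_card (filter_subset_filter _ sdiff_subset))
        (hO a (mem_sdiff.mp ha).1))
    have key : ∀ g ∈ D, g ∈ F ∧ g ≠ f ∧ ¬ O f g ∧ ¬ O g f := by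
      intro g hg
      have h1 := mem_sdiff.mp (hDF hg)
      have hgf : g ≠ f := by
        rintro rfl
        exact h1.2 (mem_insert_self _ _)
      refine ⟨h1.1, hgf, fun h => h1.2 ?_, fun h => h1.2 ?_⟩
      · exact mem_insert_of_mem (mem_union_left _ (mem_filter.mpr ⟨h1.1, hgf, h⟩))
      · exact mem_insert_of_mem (mem_union_right _ (mem_filter.mpr ⟨h1.1, hgf, h⟩))
    have hfD : f ∉ D := fun h => (key f h).2.1 rfl
    refine ⟨insert f D, ?_, ?_, ?_⟩
    · intro g hg
      rcases mem_insert.mp hg with rfl | hg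
      · exact hf
      · exact (key g hg).1
    · intro a ha b hb hab hEab
      rcases mem_insert.mp ha with rfl | ha' <;> rcases mem_insert.mp hb with rfl | hb'
      · exact hab rfl
      · obtain ⟨h1, _, h3, h4⟩ := key b hb'
        rcases hE a hf b h1 hab hEab with h | h
        · exact h3 h
        · exact h4 h
      · obtain ⟨h1, _, h3, h4⟩ := key a ha'
        rcases hE a h1 b hf hab hEab with h | h
        · exact h4 h
        · exact h3 h
      · exact hD a ha' b hb' hab hEab
    · rw [card_insert_of_notMem hfD]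
      have : (2 * d + 1) * (D.card + 1) = (2 * d + 1) * D.card + (2 * d + 1) := by ring
      omega

/-- row ID (abstract, step 1d). Greedy independent set in a graph with an orientation of
out-degree at most `d`. -/
theorem indep {T : Type*} [DecidableEq T] (F : Finset T) (E O : T → T → Prop) [DecidableRel O]
    (d : ℕ) (hE : ∀ f ∈ F, ∀ g ∈ F, f ≠ g → E f g → O f g ∨ O g f)
    (hO : ∀ f ∈ F, (F.filter (fun g => g ≠ f ∧ O f g)).card ≤ d) :
    ∃ D ⊆ F, (∀ f ∈ D, ∀ g ∈ D, f ≠ g → ¬ E f g) ∧ F.card ≤ (2 * d + 1) * D.card :=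
  hrID_aux E O d F.card F rfl hE hO

end Pool.Agent.helper78.HR
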